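import Pool.Agent.H124R2.Vis.Exit
import Pool.Agent.H247R2.Warren

/-!
# Upper bound for the number of visibility graphs of simple polygons
-/

set_option autoImplicit false

namespace Pool.Agent.TH493.VG

open Vis124 MvPolynomial

variable {n : ℕ}

/-- the index set of the quadratic forms -/
abbrev J (n : ℕ) : Type := (Fin n × Fin n) × (Fin n × Fin n) × Bool

/-- the index set of the coordinates -/
abbrev I (n : ℕ) : Type := Fin n × Bool

/-- the coordinates of a configuration -/
def cf (v : Fin n → ℝ × ℝ) : I n → ℝ := fun p => if p.2 then (v p.1).2 else (v p.1).1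

/-- the quadratic forms: cross products and scalar products of differences -/
noncomputable def F (j : J n) : MvPolynomial (I n) ℝ :=
  if j.2.2 then
    (X (j.1.1, false) - X (j.1.2, false)) * (X (j.2.1.1, true) - X (j.2.1.2, true)) -
      (X (j.1.1, true) - X (j.1.2, true)) * (X (j.2.1.1, false) - X (j.2.1.2, false))
  else
    (X (j.1.1, false) - X (j.1.2, false)) * (X (j.2.1.1, false) - X (j.2.1.2, false)) +
      (X (j.1.1, true) - X (j.1.2, true)) * (X (j.2.1.1, true) - X (j.2.1.2, true))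

theorem deg_diff (a b : I n) : (X a - X b : MvPolynomial (I n) ℝ).totalDegree ≤ 1 := by
  refine (totalDegree_sub _ _).trans ?_
  simp [totalDegree_X]

theorem deg_prod (a b c d : I n) :
    ((X a - X b) * (X c - X d) : MvPolynomial (I n) ℝ).totalDegree ≤ 2 := by
  refine (totalDegree_mul _ _).trans ?_
  have h1 := deg_diff a b
  have h2 := deg_diff c d
  omega

theorem deg_F (j : J n) : (F j).totalDegree ≤ 2 := by
  unfold F
  split_ifs
  · refine (totalDegree_sub _ _).trans (max_le (deg_prod _ _ _ _) (deg_prod _ _ _ _))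
  · refine (totalDegree_add _ _).trans (max_le (deg_prod _ _ _ _) (deg_prod _ _ _ _))

theorem eval_cr (v : Fin n → ℝ × ℝ) (a b c d : Fin n) :
    eval (cf v) (F ((a, b), (c, d), true)) = cr (v a - v b) (v c - v d) := by
  simp [F, cf, cr]

theorem eval_dot (v : Fin n → ℝ × ℝ) (a b c d : Fin n) :
    eval (cf v) (F ((a, b), (c, d), false)) =
      (v a - v b).1 * (v c - v d).1 + (v a - v b).2 * (v c - v d).2 := by
  simp [F, cf]

theorem pos_iff {σ x y : ℝ} (h : SignType.sign x = SignType.sign y) :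
    0 < σ * x ↔ 0 < σ * y := by
  rw [← sign_eq_one_iff, ← sign_eq_one_iff, sign_mul, sign_mul, h]

theorem neg_iff {σ x y : ℝ} (h : SignType.sign x = SignType.sign y) :
    σ * x < 0 ↔ σ * y < 0 := by
  rw [← sign_eq_neg_one_iff, ← sign_eq_neg_one_iff, sign_mul, sign_mul, h]

theorem nonpos_iff {σ x y : ℝ} (h : SignType.sign x = SignType.sign y) :
    σ * x ≤ 0 ↔ σ * y ≤ 0 := by
  rw [← not_lt, ← not_lt, pos_iff h]

/-- the visibility graph is determined by the orientation of the polygon and the signs of the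
forms -/
theorem visGraph_eq {v v' : Fin n → ℝ × ℝ} {P P' : Set (ℝ × ℝ)} (h : IsSimplePolygon v P)
    (h' : IsSimplePolygon v' P') {σ : ℝ} (hσ : σ = 1 ∨ σ = -1)
    (hint : ∀ k, Ev v (interior P) σ k) (hext : ∀ k, Ev v Pᶜ (-σ) k)
    (hint' : ∀ k, Ev v' (interior P') σ k) (hext' : ∀ k, Ev v' P'ᶜ (-σ) k)
    (hs : ∀ j : J n, SignType.sign (eval (cf v) (F j)) = SignType.sign (eval (cf v') (F j))) :
    visGraph v P = visGraph v' P' := by
  have hcr : ∀ a b c d : Fin n, SignType.sign (cr (v a - v b) (v c - v d)) =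
      SignType.sign (cr (v' a - v' b) (v' c - v' d)) := by
    intro a b c d
    have := hs ((a, b), (c, d), true)
    rwa [eval_cr, eval_cr] at this
  have hdot : ∀ a b c d : Fin n,
      SignType.sign ((v a - v b).1 * (v c - v d).1 + (v a - v b).2 * (v c - v d).2) =
      SignType.sign ((v' a - v' b).1 * (v' c - v' d).1 + (v' a - v' b).2 * (v' c - v' d).2) := by
    intro a b c d
    have := hs ((a, b), (c, d), false)
    rwa [eval_dot, eval_dot] at this
  have hori : ∀ a b c : Fin n, SignType.sign (ori (v a) (v b) (v c)) =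
      SignType.sign (ori (v' a) (v' b) (v' c)) := fun a b c => hcr b a c a
  have hV : ∀ i j k, VExit σ v i j k ↔ VExit σ v' i j k := by
    intro i j k
    unfold VExit
    have e1 : ori (v i) (v j) (v k) = 0 ↔ ori (v' i) (v' j) (v' k) = 0 := by
      rw [← sign_eq_zero_iff, hori, sign_eq_zero_iff]
    have e2 : dotp (v k) (v i) (v j) ≤ 0 ↔ dotp (v' k) (v' i) (v' j) ≤ 0 := by
      have := nonpos_iff (σ := 1) (hdot i k j k)
      simpa [dotp] using this
    have e3 : v j - v k ∈ Sec (-σ) (wd v k) (ud v k) ↔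
        v' j - v' k ∈ Sec (-σ) (wd v' k) (ud v' k) := by
      show ((0 < -σ * cr (wd v k) (ud v k) ∧ 0 < -σ * cr (wd v k) (v j - v k) ∧
          0 < -σ * cr (v j - v k) (ud v k)) ∨
        (-σ * cr (wd v k) (ud v k) ≤ 0 ∧ (0 < -σ * cr (wd v k) (v j - v k) ∨
          0 < -σ * cr (v j - v k) (ud v k)))) ↔
        ((0 < -σ * cr (wd v' k) (ud v' k) ∧ 0 < -σ * cr (wd v' k) (v' j - v' k) ∧
          0 < -σ * cr (v' j - v' k) (ud v' k)) ∨
        (-σ * cr (wd v' k) (ud v' k) ≤ 0 ∧ (0 < -σ * cr (wd v' k) (v' j - v' k) ∨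
          0 < -σ * cr (v' j - v' k) (ud v' k))))
      have c1 : SignType.sign (cr (wd v k) (ud v k)) = SignType.sign (cr (wd v' k) (ud v' k)) :=
        hcr (sc k) k (pd k) k
      have c2 : SignType.sign (cr (wd v k) (v j - v k)) =
          SignType.sign (cr (wd v' k) (v' j - v' k)) := hcr (sc k) k j k
      have c3 : SignType.sign (cr (v j - v k) (ud v k)) =
          SignType.sign (cr (v' j - v' k) (ud v' k)) := hcr j k (pd k) k
      rw [pos_iff c1, nonpos_iff c1, pos_iff c2, pos_iff c3]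
    rw [e1, e2, e3]
  have hE : ∀ i j l, EExit σ v i j l ↔ EExit σ v' i j l := by
    intro i j l
    unfold EExit
    rw [pos_iff (hori l (sc l) i), neg_iff (hori l (sc l) j)]
    have : ori (v i) (v j) (v l) * ori (v i) (v j) (v (sc l)) < 0 ↔
        ori (v' i) (v' j) (v' l) * ori (v' i) (v' j) (v' (sc l)) < 0 := by
      rw [← sign_eq_neg_one_iff, ← sign_eq_neg_one_iff, sign_mul, sign_mul, hori, hori]
    rw [this]
  ext i j
  show (i ≠ j ∧ segment ℝ (v i) (v j) ⊆ P) ↔ (i ≠ j ∧ segment ℝ (v' i) (v' j) ⊆ P')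
  refine and_congr_right fun hij => ?_
  constructor
  · intro h1
    by_contra h2
    have h3 := exit_of_not_visible h' hσ hint' hext' hij h2
    simp only [← hV, ← hE] at h3
    exact not_visible_of_exit h hσ hext hij h3 h1
  · intro h1
    by_contra h2
    have h3 := exit_of_not_visible h hσ hint hext hij h2
    simp only [hV, hE] at h3
    exact not_visible_of_exit h' hσ hext' hij h3 h1

/-- the visibility graphs with a labelling -/
def visLab (n : ℕ) : Set (SimpleGraph (Fin n)) :=
  {G | ∃ (v : Fin n → ℝ × ℝ) (P : Set (ℝ × ℝ)), IsSimplePolygon v P ∧ G = visGraph v P}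

theorem card_visLab (n : ℕ) : (visLab n).ncard ≤ 2 * (16 * n ^ 4 + 1) ^ (2 * n) := by
  classical
  let S : Finset (J n → SignType) :=
    Finset.univ.filter (fun τ => ∃ x : I n → ℝ, ∀ j, SignType.sign (eval x (F j)) = τ j)
  have hS : S.card ≤ (16 * n ^ 4 + 1) ^ (2 * n) := by
    have h1 := Pool.Agent.H247R2.Warren.sign_count (F (n := n)) 2 deg_F S (by
      intro τ hτ
      exact (Finset.mem_filter.1 hτ).2)
    have e1 : Fintype.card (J n) = 2 * n ^ 4 := by
      simp [J, Fintype.card_prod]; ring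
    have e2 : Fintype.card (I n) = 2 * n := by
      simp [I, Fintype.card_prod]; ring
    rw [e1, e2] at h1
    refine h1.trans (le_of_eq ?_)
    congr 2; ring
  have hdata : ∀ G : visLab n, ∃ (v : Fin n → ℝ × ℝ) (P : Set (ℝ × ℝ)) (σ : ℝ),
      IsSimplePolygon v P ∧ G.1 = visGraph v P ∧ (σ = 1 ∨ σ = -1) ∧
      (∀ k, Ev v (interior P) σ k) ∧ (∀ k, Ev v Pᶜ (-σ) k) := by
    rintro ⟨G, v, P, h, rfl⟩
    obtain ⟨σ, h1, h2, h3⟩ := oriented h
    exact ⟨v, P, σ, h, rfl, h1, h2, h3⟩
  choose v P σ h1 h2 h3 h4 h5 using hdata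
  let f : visLab n → Bool × S := fun G =>
    (decide (σ G = 1), ⟨fun j => SignType.sign (eval (cf (v G)) (F j)),
      Finset.mem_filter.2 ⟨Finset.mem_univ _, cf (v G), fun j => rfl⟩⟩)
  have hf : Function.Injective f := by
    intro G G' hGG
    have e1 : decide (σ G = 1) = decide (σ G' = 1) := congrArg Prod.fst hGG
    have e2 : ∀ j, SignType.sign (eval (cf (v G)) (F j)) =
        SignType.sign (eval (cf (v G')) (F j)) := by
      intro j
      exact congrFun (congrArg Subtype.val (congrArg Prod.snd hGG)) j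
    have e3 : σ G = σ G' := by
      have e4 : (σ G = 1) ↔ (σ G' = 1) := by simpa using e1
      rcases h3 G with h | h
      · rw [h, e4.1 h]
      · rcases h3 G' with h' | h'
        · have := e4.2 h'
          rw [this, h']
        · rw [h, h']
    apply Subtype.ext
    rw [h2 G, h2 G']
    exact visGraph_eq (h1 G) (h1 G') (h3 G) (h4 G) (h5 G) (by rw [e3]; exact h4 G')
      (by rw [e3]; exact h5 G') e2
  have hc := Nat.card_le_card_of_injective f hf
  rw [Nat.card_coe_set_eq, Nat.card_prod] at hc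
  simp only [Nat.card_eq_fintype_card, Fintype.card_bool, Fintype.card_coe] at hc
  exact hc.trans (Nat.mul_le_mul_left _ hS)

/-- **Upper bound** -/
theorem N_le (n : ℕ) : N n ≤ 2 * (16 * n ^ 4 + 1) ^ (2 * n) := by
  refine le_trans ?_ (card_visLab n)
  have hsub : visClasses n ⊆ (Quotient.mk (isoSetoid n)) '' (visLab n) := by
    rintro q ⟨v, P, h, rfl⟩
    exact ⟨_, ⟨v, P, h, rfl⟩, rfl⟩
  have hfin : (visLab n).Finite := Set.toFinite _
  exact (Set.ncard_le_ncard hsub (hfin.image _)).trans (Set.ncard_image_le hfin)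

end Pool.Agent.TH493.VG
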