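import Pool.Agent.TH493.VG.Fam
import Pool.Agent.TH493.VG.Upper

/-!
# Lower bound for the number of visibility graphs of simple polygons, and the growth rate
-/

set_option autoImplicit false

namespace Pool.Agent.TH493.VG

open Vis124 Set

namespace Par

variable (Q : Par)

/-- the left targets seen by a valley, counted in any graph isomorphic to the visibility graph -/
theorem count_L (R : SimpleGraph (Fin (8 * Q.m + Q.p + 4))) (φ : visGraph Q.v Q.dat.P ≃g R)
    (i : ℕ) (hi : i < Q.m) (hl : Q.l i ≤ Q.m) :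
    ({x | x ∈ {x | ∃ j hj, x = φ (Q.iL j hj)} ∧ R.Adj (φ (Q.iu i hi)) x}).ncard = Q.l i := by
  have hset : {x | x ∈ {x | ∃ j hj, x = φ (Q.iL j hj)} ∧ R.Adj (φ (Q.iu i hi)) x} =
      Set.range (fun j : Fin (Q.l i) => φ (Q.iL (j + 1) ⟨by omega, by have := j.2; omega⟩)) := by
    ext x
    constructor
    · rintro ⟨⟨j, hj, rfl⟩, h2⟩
      rw [φ.map_adj_iff, adj_L] at h2
      refine ⟨⟨j - 1, by omega⟩, ?_⟩
      show φ (Q.iL (j - 1 + 1) _) = φ (Q.iL j hj)
      congr 2
      omega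
    · rintro ⟨j, rfl⟩
      refine ⟨⟨j + 1, _, rfl⟩, ?_⟩
      rw [φ.map_adj_iff, adj_L]
      exact j.2
  rw [hset, Set.ncard_range_of_injective, Nat.card_eq_fintype_card, Fintype.card_fin]
  intro j j' h
  have h2 := φ.injective h
  have h3 := congrArg Fin.val h2
  simp only [iL] at h3
  apply Fin.ext
  omega

/-- the right targets seen by a valley, counted in any graph isomorphic to the visibility graph -/
theorem count_R (R : SimpleGraph (Fin (8 * Q.m + Q.p + 4))) (φ : visGraph Q.v Q.dat.P ≃g R)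
    (i : ℕ) (hi : i < Q.m) (hl : Q.r i ≤ Q.m) :
    ({x | x ∈ {x | ∃ j hj, x = φ (Q.iR j hj)} ∧ R.Adj (φ (Q.iu i hi)) x}).ncard = Q.r i := by
  have hset : {x | x ∈ {x | ∃ j hj, x = φ (Q.iR j hj)} ∧ R.Adj (φ (Q.iu i hi)) x} =
      Set.range (fun j : Fin (Q.r i) => φ (Q.iR (j + 1) ⟨by omega, by have := j.2; omega⟩)) := by
    ext x
    constructor
    · rintro ⟨⟨j, hj, rfl⟩, h2⟩
      rw [φ.map_adj_iff, adj_R] at h2
      refine ⟨⟨j - 1, by omega⟩, ?_⟩
      show φ (Q.iR (j - 1 + 1) _) = φ (Q.iR j hj)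
      congr 2
      omega
    · rintro ⟨j, rfl⟩
      refine ⟨⟨j + 1, _, rfl⟩, ?_⟩
      rw [φ.map_adj_iff, adj_R]
      exact j.2
  rw [hset, Set.ncard_range_of_injective, Nat.card_eq_fintype_card, Fintype.card_fin]
  intro j j' h
  have h2 := φ.injective h
  have h3 := congrArg Fin.val h2
  simp only [iR] at h3
  have := j.2
  have := j'.2
  apply Fin.ext
  omega

end Par

/-- the polygon for a pair of functions -/
def mkPar (m p : ℕ) (hm : 1 ≤ m) (f : (Fin m → Fin (m + 1)) × (Fin m → Fin (m + 1))) : Par where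
  m := m
  p := p
  l := fun i => if h : i < m then (f.1 ⟨i, h⟩ : ℕ) else 0
  r := fun i => if h : i < m then (f.2 ⟨i, h⟩ : ℕ) else 0
  hm := hm

theorem lower_count (m p : ℕ) (hm : 1 ≤ m) :
    (m + 1) ^ (2 * m) ≤ N (8 * m + p + 4) * ((8 * m + p + 4) ^ m * 4 ^ (8 * m + p + 4)) := by
  classical
  set n := 8 * m + p + 4 with hn
  let F := (Fin m → Fin (m + 1)) × (Fin m → Fin (m + 1))
  let Gr : F → SimpleGraph (Fin n) := fun f => visGraph (mkPar m p hm f).v (mkPar m p hm f).dat.P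
  let cls : F → Quotient (isoSetoid n) := fun f => Quotient.mk (isoSetoid n) (Gr f)
  have hiso : ∀ f, Nonempty (Gr f ≃g (cls f).out) := by
    intro f
    have h1 : (isoSetoid n) ((cls f).out) (Gr f) := Quotient.mk_out (s := isoSetoid n) (Gr f)
    obtain ⟨e⟩ := h1
    exact ⟨e.symm⟩
  let φ : ∀ f, Gr f ≃g (cls f).out := fun f => (hiso f).some
  have hmem : ∀ f, cls f ∈ visClasses n := fun f =>
    ⟨(mkPar m p hm f).v, (mkPar m p hm f).dat.P, (mkPar m p hm f).simple_v, rfl⟩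
  let SL : F → Set (Fin n) := fun f => {x | ∃ j hj, x = φ f ((mkPar m p hm f).iL j hj)}
  let SR : F → Set (Fin n) := fun f => {x | ∃ j hj, x = φ f ((mkPar m p hm f).iR j hj)}
  let pos : F → (Fin m → Fin n) := fun f i => φ f ((mkPar m p hm f).iu i i.2)
  let Φ : F → visClasses n × ((Fin m → Fin n) × (Set (Fin n) × Set (Fin n))) := fun f =>
    (⟨cls f, hmem f⟩, (pos f, (SL f, SR f)))
  have hL : ∀ (f : F) (i : Fin m), ({x | x ∈ SL f ∧ (cls f).out.Adj (pos f i) x}).ncard =
      (f.1 i : ℕ) := by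
    intro f i
    have hli : (mkPar m p hm f).l i = (f.1 i : ℕ) := by
      show (if h : (i : ℕ) < m then (f.1 ⟨i, h⟩ : ℕ) else 0) = _
      rw [dif_pos i.2]
    rw [← hli]
    exact (mkPar m p hm f).count_L ((cls f).out) (φ f) i i.2 (by
      rw [hli]; exact Nat.lt_succ_iff.1 (f.1 i).2)
  have hR : ∀ (f : F) (i : Fin m), ({x | x ∈ SR f ∧ (cls f).out.Adj (pos f i) x}).ncard =
      (f.2 i : ℕ) := by
    intro f i
    have hri : (mkPar m p hm f).r i = (f.2 i : ℕ) := by
      show (if h : (i : ℕ) < m then (f.2 ⟨i, h⟩ : ℕ) else 0) = _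
      rw [dif_pos i.2]
    rw [← hri]
    exact (mkPar m p hm f).count_R ((cls f).out) (φ f) i i.2 (by
      rw [hri]; exact Nat.lt_succ_iff.1 (f.2 i).2)
  have hinj : Function.Injective Φ := by
    intro f f' h
    have e1 : cls f = cls f' := congrArg Subtype.val (congrArg Prod.fst h)
    have e2 : pos f = pos f' := congrArg (fun z => z.2.1) h
    have e3 : SL f = SL f' := congrArg (fun z => z.2.2.1) h
    have e4 : SR f = SR f' := congrArg (fun z => z.2.2.2) h
    apply Prod.ext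
    · funext i
      apply Fin.ext
      rw [← hL f i, ← hL f' i, e1, e2, e3]
    · funext i
      apply Fin.ext
      rw [← hR f i, ← hR f' i, e1, e2, e4]
  have hfin : Finite (visClasses n) := by
    have : Finite (Quotient (isoSetoid n)) := Quotient.finite _
    exact Subtype.finite
  have hc := Nat.card_le_card_of_injective Φ hinj
  rw [Nat.card_prod, Nat.card_prod, Nat.card_prod, Nat.card_prod, Nat.card_coe_set_eq] at hc
  have c1 : Nat.card (Fin m → Fin (m + 1)) = (m + 1) ^ m := by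
    simp [Nat.card_eq_fintype_card]
  have c2 : Nat.card (Fin m → Fin n) = n ^ m := by
    simp [Nat.card_eq_fintype_card]
  have c3 : Nat.card (Set (Fin n)) = 2 ^ n := by
    simp [Nat.card_eq_fintype_card, Fintype.card_set]
  rw [c1, c2, c3] at hc
  calc (m + 1) ^ (2 * m) = (m + 1) ^ m * (m + 1) ^ m := by rw [two_mul, pow_add]
    _ ≤ (visClasses n).ncard * (n ^ m * (2 ^ n * 2 ^ n)) := hc
    _ = N n * (n ^ m * 4 ^ n) := by
      rw [← mul_pow]; rfl

/-- lower bound in logarithmic form -/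
theorem lower_log {n : ℕ} (hn : 2 ^ 80 ≤ n) :
    (1 / 32 : ℝ) * (n * Real.logb 2 n) ≤ Real.logb 2 (N n) := by
  obtain ⟨m, p, hp, hmp⟩ : ∃ m p, p < 8 ∧ n = 8 * m + p + 4 :=
    ⟨(n - 4) / 8, (n - 4) % 8, Nat.mod_lt _ (by norm_num), by
      have h1 := Nat.div_add_mod (n - 4) 8
      have h2 : 4 ≤ n := le_trans (by norm_num) hn
      omega⟩
  have hbig : (2 : ℕ) ^ 10 ≤ n := le_trans (by norm_num) hn
  have hm : 1 ≤ m := by omega
  have h := lower_count m p hm
  rw [← hmp] at h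
  have hN : 0 < N n := by
    rcases Nat.eq_zero_or_pos (N n) with h0 | h0
    · rw [h0, zero_mul] at h
      have : 0 < (m + 1) ^ (2 * m) := by positivity
      omega
    · exact h0
  have hnpos : (0 : ℝ) < n := by
    have : 0 < n := by omega
    exact_mod_cast this
  have hNpos : (0 : ℝ) < N n := by exact_mod_cast hN
  have h' : ((m : ℝ) + 1) ^ (2 * m) ≤ N n * ((n : ℝ) ^ m * 4 ^ n) := by exact_mod_cast h
  have hlog := Real.logb_le_logb_of_le (b := 2) (by norm_num) (by positivity) h'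
  rw [Real.logb_pow, Real.logb_mul hNpos.ne' (by positivity), Real.logb_mul (by positivity)
    (by positivity), Real.logb_pow, Real.logb_pow] at hlog
  have h4 : Real.logb 2 4 = 2 := by
    rw [show (4 : ℝ) = 2 ^ (2 : ℕ) by norm_num, Real.logb_pow, Real.logb_self_eq_one (by norm_num)]
    norm_num
  rw [h4] at hlog
  set x := Real.logb 2 n with hx
  have hx80 : 80 ≤ x := by
    rw [hx, Real.le_logb_iff_rpow_le (by norm_num) hnpos]
    have : ((2 : ℕ) ^ 80 : ℕ) ≤ n := hn
    have h2 : ((2 : ℝ) ^ (80 : ℕ)) ≤ n := by exact_mod_cast this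
    calc (2 : ℝ) ^ (80 : ℝ) = (2 : ℝ) ^ (80 : ℕ) := by norm_num
      _ ≤ n := h2
  have hm16 : (n : ℝ) / 16 ≤ m + 1 := by
    have h1 : n ≤ 16 * (m + 1) := by omega
    have h2 : (n : ℝ) ≤ 16 * (m + 1) := by exact_mod_cast h1
    linarith
  have hm16' : (n : ℝ) / 16 ≤ m := by
    have h1 : n ≤ 16 * m := by omega
    have h2 : (n : ℝ) ≤ 16 * m := by exact_mod_cast h1
    linarith
  have hlm : x - 4 ≤ Real.logb 2 ((m : ℝ) + 1) := by
    have h1 := Real.logb_le_logb_of_le (b := 2) (by norm_num) (by positivity) hm16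
    rw [Real.logb_div hnpos.ne' (by norm_num), show (16 : ℝ) = 2 ^ (4 : ℕ) by norm_num,
      Real.logb_pow, Real.logb_self_eq_one (by norm_num)] at h1
    push_cast at h1
    linarith
  have hm0 : (0 : ℝ) ≤ m := Nat.cast_nonneg _
  have k1 : ((2 * m : ℕ) : ℝ) * (x - 4) ≤ ((2 * m : ℕ) : ℝ) * Real.logb 2 ((m : ℝ) + 1) :=
    mul_le_mul_of_nonneg_left hlm (Nat.cast_nonneg _)
  push_cast at k1 hlog
  have k2 : (m : ℝ) * (x - 8) ≤ Real.logb 2 (N n) + n * 2 := by nlinarith
  have k3 : (n : ℝ) / 16 * (x - 8) ≤ m * (x - 8) :=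
    mul_le_mul_of_nonneg_right hm16' (by linarith)
  nlinarith

/-- upper bound in logarithmic form -/
theorem upper_log {n : ℕ} (hn : 2 ^ 80 ≤ n) :
    Real.logb 2 (N n) ≤ 11 * (n * Real.logb 2 n) := by
  have h := N_le n
  have hbig : (2 : ℕ) ^ 10 ≤ n := le_trans (by norm_num) hn
  have hnpos : (0 : ℝ) < n := by
    have : 0 < n := by omega
    exact_mod_cast this
  have hn32 : 32 ≤ n := by omega
  have h1 : 16 * n ^ 4 + 1 ≤ n ^ 5 := by
    have h2 : 32 * n ^ 4 ≤ n * n ^ 4 := Nat.mul_le_mul_right _ hn32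
    have h3 : 1 ≤ n ^ 4 := Nat.one_le_pow _ _ (by omega)
    calc 16 * n ^ 4 + 1 ≤ 32 * n ^ 4 := by omega
      _ ≤ n * n ^ 4 := h2
      _ = n ^ 5 := by ring
  have h2 : N n ≤ 2 * (n ^ 5) ^ (2 * n) := h.trans (Nat.mul_le_mul_left _ (Nat.pow_le_pow_left h1 _))
  have hlog_nonneg : 0 ≤ Real.logb 2 n := Real.logb_nonneg (by norm_num) (by
    have : 1 ≤ n := by omega
    exact_mod_cast this)
  rcases Nat.eq_zero_or_pos (N n) with h0 | h0
  · rw [h0]
    simp only [Nat.cast_zero, Real.logb_zero]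
    positivity
  · have hNpos : (0 : ℝ) < N n := by exact_mod_cast h0
    have h3 : (N n : ℝ) ≤ 2 * ((n : ℝ) ^ 5) ^ (2 * n) := by exact_mod_cast h2
    have h4 : (2 : ℝ) ≤ n := by
      have : 2 ≤ n := by omega
      exact_mod_cast this
    have hlog := Real.logb_le_logb_of_le (b := 2) (by norm_num) hNpos h3
    rw [Real.logb_mul (by norm_num) (by positivity), Real.logb_pow, Real.logb_pow,
      Real.logb_self_eq_one (by norm_num)] at hlog
    push_cast at hlog
    have hx1 : 1 ≤ Real.logb 2 n := by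
      rw [Real.le_logb_iff_rpow_le (by norm_num) hnpos, Real.rpow_one]
      exact h4
    have h5 : (1 : ℝ) ≤ n * Real.logb 2 n := by nlinarith
    nlinarith

end Pool.Agent.TH493.VG
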