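import Pool.Agent.TH493.VG.Mono

/-!
# A family of polygons whose visibility graphs encode pairs of functions
-/

set_option autoImplicit false

namespace Pool.Agent.TH493.VG

open Vis124 Set

/-- a tent over `[c, c + 1]` -/
noncomputable def tent (a b c x : ℝ) : ℝ := max 0 (min ((x - c) / a) ((c + 1 - x) / b))

theorem tent_nonneg (a b c x : ℝ) : 0 ≤ tent a b c x := le_max_left _ _

theorem tent_cont (a b c : ℝ) : Continuous (tent a b c) := by
  unfold tent
  fun_prop

theorem tent_left {a b c x : ℝ} (ha : 0 < a) (hx : x ≤ c) : tent a b c x = 0 := by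
  unfold tent
  apply max_eq_left
  exact (min_le_left _ _).trans (div_nonpos_of_nonpos_of_nonneg (by linarith) ha.le)

theorem tent_right {a b c x : ℝ} (hb : 0 < b) (hx : c + 1 ≤ x) : tent a b c x = 0 := by
  unfold tent
  apply max_eq_left
  exact (min_le_right _ _).trans (div_nonpos_of_nonpos_of_nonneg (by linarith) hb.le)

theorem tent_mid {a b c x : ℝ} (ha : 0 < a) (hb : 0 < b) (h1 : c ≤ x) (h2 : x ≤ c + 1) :
    tent a b c x = min ((x - c) / a) ((c + 1 - x) / b) := by
  unfold tent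
  apply max_eq_right
  exact le_min (div_nonneg (by linarith) ha.le) (div_nonneg (by linarith) hb.le)

theorem tent_up {a b c x : ℝ} (ha : 0 < a) (hb : 0 < b) (h1 : c ≤ x) (h2 : x ≤ c + a / (a + b)) :
    tent a b c x = (x - c) / a := by
  have hab : 0 < a + b := by linarith
  have h3 : a / (a + b) ≤ 1 := (div_le_one hab).2 (by linarith)
  rw [tent_mid ha hb h1 (by linarith)]
  apply min_eq_left
  have h4 : x - c ≤ a / (a + b) := by linarith
  have h5 : (x - c) * (a + b) ≤ a := (le_div_iff₀ hab).1 h4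
  rw [div_le_div_iff₀ ha hb]
  nlinarith

theorem tent_down {a b c x : ℝ} (ha : 0 < a) (hb : 0 < b) (h1 : c + a / (a + b) ≤ x)
    (h2 : x ≤ c + 1) : tent a b c x = (c + 1 - x) / b := by
  have hab : 0 < a + b := by linarith
  have h3 : 0 ≤ a / (a + b) := div_nonneg ha.le hab.le
  rw [tent_mid ha hb (by linarith) h2]
  apply min_eq_right
  have h4 : a / (a + b) ≤ x - c := by linarith
  have h5 : a ≤ (x - c) * (a + b) := (div_le_iff₀ hab).1 h4
  rw [div_le_div_iff₀ hb ha]
  nlinarith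

/-- a row of tents -/
noncomputable def tents (a b : ℕ → ℝ) (c : ℝ) (K : ℕ) (x : ℝ) : ℝ :=
  ∑ j ∈ Finset.range K, tent (a j) (b j) (c + j) x

theorem tents_nonneg (a b : ℕ → ℝ) (c : ℝ) (K : ℕ) (x : ℝ) : 0 ≤ tents a b c K x :=
  Finset.sum_nonneg fun _ _ => tent_nonneg _ _ _ _

theorem tents_cont (a b : ℕ → ℝ) (c : ℝ) (K : ℕ) : Continuous (tents a b c K) := by
  unfold tents
  exact continuous_finsetSum _ fun j _ => tent_cont _ _ _

section
variable {a b : ℕ → ℝ} {c : ℝ} {K : ℕ} (ha : ∀ j < K, 0 < a j) (hb : ∀ j < K, 0 < b j)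
include ha hb

theorem tents_at {i : ℕ} (hi : i < K) {x : ℝ} (h1 : c + i ≤ x) (h2 : x ≤ c + i + 1) :
    tents a b c K x = tent (a i) (b i) (c + i) x := by
  unfold tents
  apply Finset.sum_eq_single_of_mem i (Finset.mem_range.2 hi)
  intro j hj hji
  have hj' := Finset.mem_range.1 hj
  rcases lt_or_gt_of_ne hji with h | h
  · apply tent_right (hb j hj')
    have : (j : ℝ) + 1 ≤ i := by exact_mod_cast h
    linarith
  · apply tent_left (ha j hj')
    have : (i : ℝ) + 1 ≤ j := by exact_mod_cast h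
    linarith

theorem tents_out {x : ℝ} (h : x ≤ c ∨ c + K ≤ x) : tents a b c K x = 0 := by
  unfold tents
  apply Finset.sum_eq_zero
  intro j hj
  have hj' := Finset.mem_range.1 hj
  rcases h with h | h
  · apply tent_left (ha j hj')
    have : (0 : ℝ) ≤ j := Nat.cast_nonneg j
    linarith
  · apply tent_right (hb j hj')
    have : (j : ℝ) + 1 ≤ K := by exact_mod_cast hj'
    linarith

/-- rising pieces -/
theorem tents_up {i : ℕ} (hi : i < K) :
    Aff (tents a b c K) (c + i) (c + i + a i / (a i + b i)) := by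
  refine ⟨1 / a i, -(c + i) / a i, fun x h1 h2 => ?_⟩
  have hai := ha i hi
  have hbi := hb i hi
  have h3 : a i / (a i + b i) ≤ 1 := (div_le_one (by linarith)).2 (by linarith)
  rw [tents_at ha hb hi h1 (by linarith), tent_up hai hbi h1 h2]
  ring

/-- falling pieces -/
theorem tents_down {i : ℕ} (hi : i < K) :
    Aff (tents a b c K) (c + i + a i / (a i + b i)) (c + i + 1) := by
  refine ⟨-1 / b i, (c + i + 1) / b i, fun x h1 h2 => ?_⟩
  have hai := ha i hi
  have hbi := hb i hi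
  have h3 : 0 ≤ a i / (a i + b i) := div_nonneg hai.le (by linarith)
  rw [tents_at ha hb hi (by linarith) h2, tent_down hai hbi h1 h2]
  ring

end

theorem Aff.neg {f : ℝ → ℝ} {a b : ℝ} (h : Aff f a b) : Aff (fun x => - f x) a b := by
  obtain ⟨s, t, h⟩ := h
  refine ⟨-s, -t, fun x h1 h2 => ?_⟩
  show - f x = _
  rw [h x h1 h2]; ring

theorem Aff.one_add {f : ℝ → ℝ} {a b : ℝ} (h : Aff f a b) : Aff (fun x => 1 + f x) a b := by
  obtain ⟨s, t, h⟩ := h
  refine ⟨s, 1 + t, fun x h1 h2 => ?_⟩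
  show 1 + f x = _
  rw [h x h1 h2]; ring

theorem Aff.congr {f : ℝ → ℝ} {a b a' b' : ℝ} (h : Aff f a b) (h1 : a = a') (h2 : b = b') :
    Aff f a' b' := by subst h1; subst h2; exact h

/-- the parameters of the family: `m` valleys, `p` additional vertices, and for every valley the
numbers of targets seen on the left and on the right -/
structure Par where
  m : ℕ
  p : ℕ
  l : ℕ → ℕ
  r : ℕ → ℕ
  hm : 1 ≤ m

namespace Par

variable (Q : Par)

noncomputable def al (i : ℕ) : ℝ := i + Q.l i + 1 / 2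
noncomputable def be (i : ℕ) : ℝ := Q.m - i - 1 + Q.r i + 1 / 2
noncomputable def M : ℝ := Q.m + Q.p

theorem al_pos (i : ℕ) : 0 < Q.al i := by unfold al; positivity

theorem be_pos {i : ℕ} (hi : i < Q.m) : 0 < Q.be i := by
  unfold be
  have h1 : (i : ℝ) + 1 ≤ Q.m := by exact_mod_cast hi
  have h2 : (0 : ℝ) ≤ Q.r i := Nat.cast_nonneg _
  linarith

/-- the lower function -/
noncomputable def L (x : ℝ) : ℝ := - tents Q.al Q.be Q.M Q.m x

/-- the upper function -/
noncomputable def U (x : ℝ) : ℝ := 1 + tents (fun _ => 1) (fun _ => 1) 0 (3 * Q.m + Q.p) x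

theorem L_nonpos (x : ℝ) : Q.L x ≤ 0 := neg_nonpos.2 (tents_nonneg _ _ _ _ _)

theorem one_le_U (x : ℝ) : 1 ≤ Q.U x := le_add_of_nonneg_right (tents_nonneg _ _ _ _ _)

noncomputable def xi (i : ℕ) : ℝ := Q.M + i + Q.al i / (Q.al i + Q.be i)

noncomputable def g (j : ℕ) : ℝ := if j % 2 = 0 then Q.M + (j / 2 : ℕ) else Q.xi (j / 2)

theorem g_even (i : ℕ) : Q.g (2 * i) = Q.M + i := by
  unfold g
  rw [if_pos (by omega), show 2 * i / 2 = i by omega]

theorem g_zero : Q.g 0 = Q.M := by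
  have := Q.g_even 0
  simpa using this

theorem g_odd (i : ℕ) : Q.g (2 * i + 1) = Q.xi i := by
  unfold g
  rw [if_neg (by omega), show (2 * i + 1) / 2 = i by omega]

theorem xi_gt {i : ℕ} (hi : i < Q.m) : Q.M + i < Q.xi i := by
  unfold xi
  have h1 := Q.al_pos i
  have h2 := Q.be_pos hi
  have : 0 < Q.al i / (Q.al i + Q.be i) := div_pos h1 (by linarith)
  linarith

theorem xi_lt {i : ℕ} (hi : i < Q.m) : Q.xi i < Q.M + i + 1 := by
  unfold xi
  have h1 := Q.al_pos i
  have h2 := Q.be_pos hi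
  have : Q.al i / (Q.al i + Q.be i) < 1 := (div_lt_one (by linarith)).2 (by linarith)
  linarith

/-- the abscissae of the lower vertices -/
noncomputable def b (k : ℕ) : ℝ :=
  if k = 0 then (Q.p : ℝ) / 2 else if k ≤ 2 * Q.m + 1 then Q.g (k - 1) else 3 * Q.m + Q.p

/-- the abscissae of the upper vertices -/
noncomputable def c (t : ℕ) : ℝ := 3 * Q.m + Q.p - (t : ℝ) / 2

theorem b_zero : Q.b 0 = (Q.p : ℝ) / 2 := if_pos rfl

theorem b_succ {j : ℕ} (hj : j ≤ 2 * Q.m) : Q.b (j + 1) = Q.g j := by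
  unfold b
  rw [if_neg (by omega), if_pos (by omega)]
  rfl

theorem b_last : Q.b (2 * Q.m + 2) = 3 * Q.m + Q.p := by
  unfold b
  rw [if_neg (by omega), if_neg (by omega)]

theorem hLM {x : ℝ} (h : x ≤ Q.M ∨ Q.M + Q.m ≤ x) : Q.L x = 0 := by
  unfold L
  rw [tents_out (fun j _ => Q.al_pos j) (fun j hj => Q.be_pos hj) h, neg_zero]

theorem m_pos : (1 : ℝ) ≤ Q.m := by exact_mod_cast Q.hm

/-- case analysis for the lower edges -/
theorem b_cases {C : ℕ → Prop} (h0 : C 0) (h1 : ∀ i < Q.m, C (2 * i + 1))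
    (h2 : ∀ i < Q.m, C (2 * i + 2)) (h3 : C (2 * Q.m + 1)) : ∀ k < 2 * Q.m + 2, C k := by
  intro k hk
  rcases Nat.eq_zero_or_pos k with h | h
  · rw [h]; exact h0
  · obtain ⟨j, rfl⟩ : ∃ j, k = j + 1 := ⟨k - 1, by omega⟩
    rcases Nat.even_or_odd' j with ⟨i, hi | hi⟩
    · subst hi
      by_cases him : i < Q.m
      · exact h1 i him
      · have : i = Q.m := by omega
        rw [this]; exact h3
    · subst hi
      exact h2 i (by omega)

/-- the data of the polygon -/
noncomputable def dat : Dat where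
  L := Q.L
  U := Q.U
  B := 2 * Q.m + 2
  T := 6 * Q.m + Q.p
  b := Q.b
  c := Q.c
  hL := (tents_cont _ _ _ _).neg
  hU := continuous_const.add (tents_cont _ _ _ _)
  hB := by omega
  hT := by have := Q.hm; omega
  hb := by
    have hm := Q.m_pos
    have hp : (0 : ℝ) ≤ Q.p := Nat.cast_nonneg _
    apply Q.b_cases (C := fun k => Q.b k < Q.b (k + 1))
    · rw [b_zero, b_succ _ (Nat.zero_le _), g_zero]
      unfold M
      linarith
    · intro i hi
      rw [b_succ _ (by omega), b_succ _ (by omega), g_even, g_odd]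
      exact Q.xi_gt hi
    · intro i hi
      rw [b_succ _ (by omega), b_succ _ (by omega), g_odd, show 2 * i + 1 + 1 = 2 * (i + 1) by ring,
        g_even]
      have := Q.xi_lt hi
      push_cast
      linarith
    · rw [b_succ _ le_rfl, b_last, g_even]
      unfold M
      linarith
  hc := by
    intro k _
    unfold c
    push_cast
    linarith
  h0 := by
    rw [b_zero]
    unfold c
    push_cast
    ring
  h1 := by
    rw [b_last]
    unfold c
    simp
  hLU := fun x _ _ => by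
    have h1 := Q.L_nonpos x
    have h2 := Q.one_le_U x
    linarith
  affL := by
    apply Q.b_cases (C := fun k => Aff Q.L (Q.b k) (Q.b (k + 1)))
    · rw [b_zero, b_succ _ (Nat.zero_le _), g_zero]
      refine ⟨0, 0, fun x _ h2 => ?_⟩
      rw [Q.hLM (Or.inl h2)]
      ring
    · intro i hi
      rw [b_succ _ (by omega), b_succ _ (by omega), g_even, g_odd]
      exact (tents_up (fun j _ => Q.al_pos j) (fun j hj => Q.be_pos hj) hi).neg
    · intro i hi
      rw [b_succ _ (by omega), b_succ _ (by omega), g_odd, show 2 * i + 1 + 1 = 2 * (i + 1) by ring,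
        g_even]
      exact (tents_down (fun j _ => Q.al_pos j) (fun j hj => Q.be_pos hj) hi).neg.congr rfl
        (by push_cast; ring)
    · rw [b_succ _ le_rfl, b_last, g_even]
      refine ⟨0, 0, fun x h1 _ => ?_⟩
      rw [Q.hLM (Or.inr h1)]
      ring
  affU := by
    intro t ht
    rcases Nat.even_or_odd' t with ⟨s, hs | hs⟩
    · subst hs
      obtain ⟨k, hk⟩ : ∃ k, k + s + 1 = 3 * Q.m + Q.p := ⟨3 * Q.m + Q.p - s - 1, by omega⟩
      have hk' : (k : ℝ) + s + 1 = 3 * Q.m + Q.p := by exact_mod_cast hk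
      refine (tents_down (a := fun _ => 1) (b := fun _ => 1) (c := 0) (K := 3 * Q.m + Q.p)
        (i := k) (fun _ _ => one_pos) (fun _ _ => one_pos) (by omega)).one_add.congr ?_ ?_
      · unfold c
        push_cast
        linarith
      · unfold c
        push_cast
        linarith
    · subst hs
      obtain ⟨k, hk⟩ : ∃ k, k + s + 1 = 3 * Q.m + Q.p := ⟨3 * Q.m + Q.p - s - 1, by omega⟩
      have hk' : (k : ℝ) + s + 1 = 3 * Q.m + Q.p := by exact_mod_cast hk
      refine (tents_up (a := fun _ => 1) (b := fun _ => 1) (c := 0) (K := 3 * Q.m + Q.p)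
        (i := k) (fun _ _ => one_pos) (fun _ _ => one_pos) (by omega)).one_add.congr ?_ ?_
      · unfold c
        push_cast
        linarith
      · unfold c
        push_cast
        linarith

/-- the depth of a valley -/
noncomputable def dep (i : ℕ) : ℝ := 1 / (Q.al i + Q.be i)

theorem dep_pos {i : ℕ} (hi : i < Q.m) : 0 < Q.dep i := by
  have h1 := Q.al_pos i
  have h2 := Q.be_pos hi
  unfold dep
  positivity

theorem xi_eq (i : ℕ) : Q.xi i = Q.M + i + Q.al i * Q.dep i := by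
  unfold xi dep
  ring

theorem xi_eq' {i : ℕ} (hi : i < Q.m) : Q.xi i = Q.M + i + 1 - Q.be i * Q.dep i := by
  have h1 := Q.al_pos i
  have h2 := Q.be_pos hi
  unfold xi dep
  have h3 : Q.al i + Q.be i ≠ 0 := by positivity
  field_simp
  ring

theorem L_xi {i : ℕ} (hi : i < Q.m) : Q.L (Q.xi i) = - Q.dep i := by
  unfold L
  rw [tents_at (fun j _ => Q.al_pos j) (fun j hj => Q.be_pos hj) hi (Q.xi_gt hi).le (Q.xi_lt hi).le,
    tent_up (Q.al_pos i) (Q.be_pos hi) (Q.xi_gt hi).le le_rfl, xi_eq]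
  have := Q.al_pos i
  field_simp
  ring

theorem exists_small {A B C D : ℝ} (hA : 0 < A) (hB : 0 < B) (hC : 0 < C) (hD : 0 < D) :
    ∃ t : ℝ, 0 < t ∧ t * A < B ∧ t * C ≤ D := by
  refine ⟨min (B / (2 * A)) (D / C), lt_min (by positivity) (by positivity), ?_, ?_⟩
  · calc min (B / (2 * A)) (D / C) * A ≤ B / (2 * A) * A := by
          gcongr; exact min_le_left _ _
      _ = B / 2 := by field_simp
      _ < B := by linarith
  · calc min (B / (2 * A)) (D / C) * C ≤ D / C * C := by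
          gcongr; exact min_le_right _ _
      _ = D := by field_simp

/-- what the bottom of a valley sees -/
theorem visible_iff {i : ℕ} (hi : i < Q.m) {X : ℝ} (hX0 : Q.b 0 ≤ X)
    (hX1 : X ≤ Q.b (2 * Q.m + 2)) :
    segment ℝ ((Q.xi i, - Q.dep i) : ℝ × ℝ) (X, 1) ⊆ Q.dat.P ↔
      Q.M + i - Q.al i ≤ X ∧ X ≤ Q.M + i + 1 + Q.be i := by
  have hd := Q.dep_pos hi
  have ha := Q.al_pos i
  have hb := Q.be_pos hi
  have e1 := Q.xi_eq i
  have e2 := Q.xi_eq' hi
  have h1 := Q.xi_gt hi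
  have h2 := Q.xi_lt hi
  have hx0 : Q.b 0 ≤ Q.xi i := by
    rw [b_zero]
    have : (Q.p : ℝ) / 2 ≤ Q.M := by
      unfold M
      have := Q.m_pos
      have : (0 : ℝ) ≤ Q.p := Nat.cast_nonneg _
      linarith
    have : (0 : ℝ) ≤ i := Nat.cast_nonneg _
    linarith
  have hx1 : Q.xi i ≤ Q.b (2 * Q.m + 2) := by
    rw [b_last]
    have h3 : (i : ℝ) + 1 ≤ Q.m := by exact_mod_cast hi
    unfold M at h2
    linarith
  set d := Q.dep i with hdd
  set ξ := Q.xi i with hξ
  have Lmid : ∀ x, Q.M + i ≤ x → x ≤ Q.M + i + 1 →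
      Q.L x = - min ((x - (Q.M + i)) / Q.al i) ((Q.M + i + 1 - x) / Q.be i) := by
    intro x h3 h4
    unfold L
    rw [tents_at (fun j _ => Q.al_pos j) (fun j hj => Q.be_pos hj) hi h3 h4, tent_mid ha hb h3 h4]
  constructor
  · intro hsub
    have hmem : ∀ t : ℝ, 0 ≤ t → t ≤ 1 → Q.L (ξ + t * (X - ξ)) ≤ -d + t * (1 + d) := by
      intro t ht0 ht1
      have h3 : ((ξ + t * (X - ξ), -d + t * (1 + d)) : ℝ × ℝ) ∈ Q.dat.P := by
        apply hsub
        rw [segment_eq_image']
        refine ⟨t, ⟨ht0, ht1⟩, ?_⟩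
        apply Prod.ext
        · simp
        · simp
      exact h3.2.2.1
    constructor
    · by_contra hc
      push Not at hc
      have hpos : 0 < ξ - X := by nlinarith
      obtain ⟨t, ht0, ht1, ht2⟩ := exists_small (A := 1 + d) (B := d) (C := ξ - X)
        (D := Q.al i * d) (by linarith) hd hpos (by positivity)
      have ht3 : t ≤ 1 := by
        by_contra h5
        push Not at h5
        nlinarith
      have h3 := hmem t ht0.le ht3
      have h4 : Q.M + i ≤ ξ + t * (X - ξ) := by nlinarith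
      have h5 : ξ + t * (X - ξ) ≤ Q.M + i + 1 := by nlinarith
      rw [Lmid _ h4 h5] at h3
      have h6 := min_le_left ((ξ + t * (X - ξ) - (Q.M + i)) / Q.al i)
        ((Q.M + i + 1 - (ξ + t * (X - ξ))) / Q.be i)
      have h7 : (ξ + t * (X - ξ) - (Q.M + i)) / Q.al i < d - t * (1 + d) := by
        rw [div_lt_iff₀ ha]
        nlinarith
      linarith
    · by_contra hc
      push Not at hc
      have hpos : 0 < X - ξ := by nlinarith
      obtain ⟨t, ht0, ht1, ht2⟩ := exists_small (A := 1 + d) (B := d) (C := X - ξ)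
        (D := Q.be i * d) (by linarith) hd hpos (by positivity)
      have ht3 : t ≤ 1 := by
        by_contra h5
        push Not at h5
        nlinarith
      have h3 := hmem t ht0.le ht3
      have h4 : Q.M + i ≤ ξ + t * (X - ξ) := by nlinarith
      have h5 : ξ + t * (X - ξ) ≤ Q.M + i + 1 := by nlinarith
      rw [Lmid _ h4 h5] at h3
      have h6 := min_le_right ((ξ + t * (X - ξ) - (Q.M + i)) / Q.al i)
        ((Q.M + i + 1 - (ξ + t * (X - ξ))) / Q.be i)
      have h7 : (Q.M + i + 1 - (ξ + t * (X - ξ))) / Q.be i < d - t * (1 + d) := by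
        rw [div_lt_iff₀ hb]
        nlinarith
      linarith
  · rintro ⟨hX2, hX3⟩
    rw [segment_eq_image']
    rintro _ ⟨t, ⟨ht0, ht1⟩, rfl⟩
    have hz : (((ξ, -d) : ℝ × ℝ) + t • (((X, 1) : ℝ × ℝ) - (ξ, -d))) =
        (ξ + t * (X - ξ), -d + t * (1 + d)) := by
      apply Prod.ext
      · simp
      · simp
    simp only [hz]
    have hy1 : -d + t * (1 + d) ≤ 1 := by nlinarith
    refine ⟨?_, ?_, ?_, ?_⟩
    · show Q.b 0 ≤ ξ + t * (X - ξ)
      nlinarith
    · show ξ + t * (X - ξ) ≤ Q.b (2 * Q.m + 2)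
      nlinarith
    · show Q.L (ξ + t * (X - ξ)) ≤ -d + t * (1 + d)
      rcases le_or_gt 0 (-d + t * (1 + d)) with hy | hy
      · exact (Q.L_nonpos _).trans hy
      · have k1 : - (Q.al i * (-d + t * (1 + d))) ≤ ξ + t * (X - ξ) - (Q.M + i) := by
          nlinarith
        have k2 : - (Q.be i * (-d + t * (1 + d))) ≤ Q.M + i + 1 - (ξ + t * (X - ξ)) := by
          nlinarith
        have k3 : 0 ≤ - (Q.al i * (-d + t * (1 + d))) := by nlinarith
        have k4 : 0 ≤ - (Q.be i * (-d + t * (1 + d))) := by nlinarith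
        rw [Lmid _ (by linarith) (by linarith), neg_le]
        apply le_min
        · rw [le_div_iff₀ ha]; linarith
        · rw [le_div_iff₀ hb]; linarith
    · show -d + t * (1 + d) ≤ Q.U (ξ + t * (X - ξ))
      exact hy1.trans (Q.one_le_U _)

theorem U_nat {k : ℕ} (hk : k ≤ 3 * Q.m + Q.p) : Q.U k = 1 := by
  unfold U
  rcases Nat.eq_zero_or_pos k with h | h
  · subst h
    rw [tents_out (fun _ _ => one_pos) (fun _ _ => one_pos) (Or.inl (by simp)), add_zero]
  · have h1 : ((k - 1 : ℕ) : ℝ) = k - 1 := by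
      rw [Nat.cast_sub h]; simp
    rw [tents_at (i := k - 1) (fun _ _ => one_pos) (fun _ _ => one_pos) (by omega)
      (by rw [h1]; linarith) (by rw [h1]; linarith), tent_right one_pos (by rw [h1]; linarith),
      add_zero]

theorem num_eq : Q.dat.num = 8 * Q.m + Q.p + 4 := by
  show 2 * Q.m + 2 + (6 * Q.m + Q.p) + 2 = _
  ring

/-- index of the bottom of the `i`-th valley -/
def iu (i : ℕ) (hi : i < Q.m) : Fin (8 * Q.m + Q.p + 4) := ⟨2 * i + 2, by omega⟩

/-- index of the `j`-th target on the left -/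
def iL (j : ℕ) (hj : 1 ≤ j ∧ j ≤ Q.m) : Fin (8 * Q.m + Q.p + 4) :=
  ⟨2 * Q.m + 3 + 2 * (2 * Q.m + j), by omega⟩

/-- index of the `j`-th target on the right -/
def iR (j : ℕ) (hj : 1 ≤ j ∧ j ≤ Q.m) : Fin (8 * Q.m + Q.p + 4) :=
  ⟨2 * Q.m + 3 + 2 * (Q.m - j), by omega⟩

/-- the vertices of the polygon -/
noncomputable def v : Fin (8 * Q.m + Q.p + 4) → ℝ × ℝ := fun i => Q.dat.vtx i

theorem simple_v : IsSimplePolygon Q.v Q.dat.P := by
  have h := Q.dat.isSimplePolygon
  have e := Q.num_eq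
  revert h
  generalize hD : Q.dat = D at *
  have : ∀ (n : ℕ) (_ : D.num = n), IsSimplePolygon D.v D.P →
      IsSimplePolygon (fun i : Fin n => D.vtx i) D.P := by
    intro n hn h
    subst hn
    exact h
  intro h
  have h2 := this _ e h
  have h3 : Q.v = fun i : Fin (8 * Q.m + Q.p + 4) => D.vtx i := by
    unfold v
    rw [hD]
  rw [h3]
  exact h2

theorem v_iu (i : ℕ) (hi : i < Q.m) : Q.v (Q.iu i hi) = (Q.xi i, - Q.dep i) := by
  show Q.dat.vtx (2 * i + 2) = _
  rw [Dat.vtx_bot _ (show 2 * i + 2 ≤ 2 * Q.m + 2 by omega)]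
  have : Q.dat.b (2 * i + 2) = Q.xi i := by
    show Q.b (2 * i + 1 + 1) = _
    rw [b_succ _ (by omega), g_odd]
  rw [this]
  exact Prod.ext rfl (Q.L_xi hi)

theorem v_top {t k : ℕ} (hkt : (k : ℝ) = 3 * Q.m + Q.p - (t : ℝ) / 2) (hk : k ≤ 3 * Q.m + Q.p) :
    Q.dat.vtx (2 * Q.m + 3 + t) = ((k : ℝ), 1) := by
  have h1 : Q.dat.vtx (2 * Q.m + 3 + t) = (Q.c t, Q.U (Q.c t)) := Q.dat.vtx_top t
  have h2 : Q.c t = k := by rw [hkt]; rfl
  rw [h1, h2, Q.U_nat hk]

theorem v_iL (j : ℕ) (hj : 1 ≤ j ∧ j ≤ Q.m) : Q.v (Q.iL j hj) = (Q.M - j, 1) := by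
  have h : ((Q.m + Q.p - j : ℕ) : ℝ) = Q.M - j := by
    rw [Nat.cast_sub (by omega)]
    unfold M
    push_cast
    ring
  have := Q.v_top (t := 2 * (2 * Q.m + j)) (k := Q.m + Q.p - j) (by
    rw [h]; unfold M; push_cast; ring) (by omega)
  rw [h] at this
  exact this

theorem v_iR (j : ℕ) (hj : 1 ≤ j ∧ j ≤ Q.m) : Q.v (Q.iR j hj) = (Q.M + Q.m + j, 1) := by
  have h : ((2 * Q.m + Q.p + j : ℕ) : ℝ) = Q.M + Q.m + j := by
    unfold M
    push_cast
    ring
  have := Q.v_top (t := 2 * (Q.m - j)) (k := 2 * Q.m + Q.p + j) (by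
    rw [h]; unfold M; push_cast [Nat.cast_sub hj.2]; ring) (by omega)
  rw [h] at this
  exact this

/-- visibility of the left targets -/
theorem adj_L (i : ℕ) (hi : i < Q.m) (j : ℕ) (hj : 1 ≤ j ∧ j ≤ Q.m) :
    (visGraph Q.v Q.dat.P).Adj (Q.iu i hi) (Q.iL j hj) ↔ j ≤ Q.l i := by
  have hne : Q.iu i hi ≠ Q.iL j hj := by
    intro h
    have := congrArg Fin.val h
    simp only [iu, iL] at this
    omega
  have h1 : (1 : ℝ) ≤ j := by exact_mod_cast hj.1
  have h2 : (j : ℝ) ≤ Q.m := by exact_mod_cast hj.2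
  have hp : (0 : ℝ) ≤ Q.p := Nat.cast_nonneg _
  have hi0 : (0 : ℝ) ≤ i := Nat.cast_nonneg _
  have hbe := Q.be_pos hi
  show (Q.iu i hi ≠ Q.iL j hj ∧ segment ℝ (Q.v (Q.iu i hi)) (Q.v (Q.iL j hj)) ⊆ Q.dat.P) ↔ _
  rw [v_iu, v_iL, Q.visible_iff hi (by rw [b_zero]; unfold M; linarith)
    (by rw [b_last]; unfold M; linarith)]
  constructor
  · rintro ⟨-, h3, -⟩
    unfold al at h3
    have h4 : (j : ℝ) < Q.l i + 1 := by linarith
    have h5 : j < Q.l i + 1 := by exact_mod_cast h4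
    omega
  · intro h3
    have h4 : (j : ℝ) ≤ Q.l i := by exact_mod_cast h3
    refine ⟨hne, ?_, ?_⟩
    · unfold al; linarith
    · linarith

/-- visibility of the right targets -/
theorem adj_R (i : ℕ) (hi : i < Q.m) (j : ℕ) (hj : 1 ≤ j ∧ j ≤ Q.m) :
    (visGraph Q.v Q.dat.P).Adj (Q.iu i hi) (Q.iR j hj) ↔ j ≤ Q.r i := by
  have hne : Q.iu i hi ≠ Q.iR j hj := by
    intro h
    have := congrArg Fin.val h
    simp only [iu, iR] at this
    omega
  have h1 : (1 : ℝ) ≤ j := by exact_mod_cast hj.1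
  have h2 : (j : ℝ) ≤ Q.m := by exact_mod_cast hj.2
  have hp : (0 : ℝ) ≤ Q.p := Nat.cast_nonneg _
  have hi0 : (i : ℝ) + 1 ≤ Q.m := by exact_mod_cast hi
  have hal := Q.al_pos i
  show (Q.iu i hi ≠ Q.iR j hj ∧ segment ℝ (Q.v (Q.iu i hi)) (Q.v (Q.iR j hj)) ⊆ Q.dat.P) ↔ _
  rw [v_iu, v_iR, Q.visible_iff hi (by rw [b_zero]; unfold M; linarith)
    (by rw [b_last]; unfold M; linarith)]
  constructor
  · rintro ⟨-, -, h3⟩
    unfold be at h3
    have h4 : (j : ℝ) < Q.r i + 1 := by linarith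
    have h5 : j < Q.r i + 1 := by exact_mod_cast h4
    omega
  · intro h3
    have h4 : (j : ℝ) ≤ Q.r i := by exact_mod_cast h3
    refine ⟨hne, ?_, ?_⟩
    · linarith
    · unfold be; linarith

end Par

end Pool.Agent.TH493.VG
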